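import Pool.Agent.Q166.CycU2
import Pool.Agent.Q166.CycL3

/-!
# MP_fa04ef_co: the inequality `a_n^{1,2,3}(321) ≤ a_n^{1,2,3}(231)` fails for all large `n`
-/

namespace Pool.Agent.Results.MP_fa04ef_co.Disproof

/-- `π` contains the pattern `s = s(1) s(2) s(3)`: there are positions `i₁ < i₂ < i₃` whose values
are in the same relative order as `s(1), s(2), s(3)`. -/
def Contains {n : ℕ} (s : Fin 3 → ℕ) (π : Equiv.Perm (Fin n)) : Prop :=
  ∃ i : Fin 3 → Fin n, StrictMono i ∧ ∀ a b, π (i a) < π (i b) ↔ s a < s b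

/-- `a_n^S(s)`: the number of permutations of `n` elements which avoid the pattern `s` and all of
whose cycles have a length in `S` (the length of the cycle through `x` is the minimal period of
`x`). -/
noncomputable def a (n : ℕ) (S : Set ℕ) (s : Fin 3 → ℕ) : ℕ :=
  Set.ncard {π : Equiv.Perm (Fin n) | ¬ Contains s π ∧ ∀ x, Function.minimalPeriod π x ∈ S}

theorem period_iff {n : ℕ} (π : Equiv.Perm (Fin n)) (x : Fin n) :
    Function.minimalPeriod π x ∈ ({1, 2, 3} : Set ℕ) ↔
      π x = x ∨ π (π x) = x ∨ π (π (π x)) = x := by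
  have hp := Function.isPeriodicPt_minimalPeriod π x
  constructor
  · intro h
    simp only [Set.mem_insert_iff, Set.mem_singleton_iff] at h
    rcases h with h | h | h
    · rw [h] at hp; left; exact hp
    · rw [h] at hp; right; left; exact hp
    · rw [h] at hp; right; right; exact hp
  · intro h
    have key : ∀ k, 0 < k → k ≤ 3 → Function.IsPeriodicPt π k x →
        Function.minimalPeriod π x ∈ ({1, 2, 3} : Set ℕ) := by
      intro k hk hk3 hper
      have h1 := hper.minimalPeriod_le hk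
      have h2 := hper.minimalPeriod_pos hk
      simp only [Set.mem_insert_iff, Set.mem_singleton_iff]
      omega
    rcases h with h | h | h
    · exact key 1 (by omega) (by omega) h
    · exact key 2 (by omega) (by omega) h
    · exact key 3 (by omega) (by omega) h

/-- extension by the identity -/
def ext {n : ℕ} (π : Equiv.Perm (Fin n)) : ℕ → ℕ :=
  fun x => if h : x < n then (π ⟨x, h⟩ : ℕ) else x

theorem ext_fin {n : ℕ} (π : Equiv.Perm (Fin n)) (x : Fin n) : ext π x = π x := by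
  simp [ext]

theorem ext_inj {n : ℕ} {π ρ : Equiv.Perm (Fin n)} (h : ext π = ext ρ) : π = ρ := by
  ext x
  rw [← ext_fin, ← ext_fin, h]

theorem ext_X {n : ℕ} {π : Equiv.Perm (Fin n)} (h1 : ¬ Contains ![2, 3, 1] π)
    (h2 : ∀ x, Function.minimalPeriod π x ∈ ({1, 2, 3} : Set ℕ)) : Q166.CycU.X n (ext π) := by
  have hge : ∀ x, n ≤ x → ext π x = x := fun x hx => by simp [ext, show ¬ x < n by omega]
  have hlt : ∀ x, x < n → ext π x < n := fun x hx => by simp [ext, hx]
  refine ⟨hlt, hge, ?_, ?_, ?_⟩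
  · intro x y hxy
    by_cases hx : x < n <;> by_cases hy : y < n
    · have e : π ⟨x, hx⟩ = π ⟨y, hy⟩ := by
        apply Fin.ext
        rw [← ext_fin, ← ext_fin]; exact hxy
      have := π.injective e
      simpa using this
    · have := hlt x hx
      rw [hxy, hge y (by omega)] at this
      omega
    · have := hlt y hy
      rw [← hxy, hge x (by omega)] at this
      omega
    · rw [hge x (by omega), hge y (by omega)] at hxy
      exact hxy
  · intro i j k hij hjk
    rintro ⟨q1, q2⟩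
    by_cases hk : k < n
    · have hj : j < n := by omega
      have hi : i < n := by omega
      have r1 := ext_fin π ⟨i, hi⟩
      have r2 := ext_fin π ⟨j, hj⟩
      have r3 := ext_fin π ⟨k, hk⟩
      simp only at r1 r2 r3
      rw [r1, r3] at q1
      rw [r1, r2] at q2
      apply h1
      have q1' : π ⟨k, hk⟩ < π ⟨i, hi⟩ := Fin.lt_def.2 q1
      have q2' : π ⟨i, hi⟩ < π ⟨j, hj⟩ := Fin.lt_def.2 q2
      have q3' : π ⟨k, hk⟩ < π ⟨j, hj⟩ := q1'.trans q2'
      refine ⟨![⟨i, hi⟩, ⟨j, hj⟩, ⟨k, hk⟩], ?_, ?_⟩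
      · rw [Fin.strictMono_iff_lt_succ]
        intro a
        fin_cases a
        · exact Fin.lt_def.2 hij
        · exact Fin.lt_def.2 hjk
      · intro a b
        fin_cases a <;> fin_cases b <;> simp [q1', q2', q3', q1'.le, q2'.le, q3'.le]
    · rw [hge k (by omega)] at q1
      by_cases hi : i < n
      · have := hlt i hi; omega
      · rw [hge i (by omega)] at q1; omega
  · intro x
    by_cases hx : x < n
    · have h3 := (period_iff π ⟨x, hx⟩).1 (h2 _)
      have r1 := ext_fin π ⟨x, hx⟩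
      have r2 := ext_fin π (π ⟨x, hx⟩)
      have r3 := ext_fin π (π (π ⟨x, hx⟩))
      simp only at r1
      rw [r1, r2, r3]
      rcases h3 with h | h | h
      · left; rw [h]
      · right; left; rw [h]
      · right; right; rw [h]
    · left; exact hge x (by omega)

theorem upper (n : ℕ) : (a n {1, 2, 3} ![2, 3, 1] : ℝ) ≤ (241 / 100 : ℝ) ^ n := by
  obtain ⟨F, hF, hF2⟩ := Q166.CycU.X_bound n
  refine le_trans ?_ hF
  have h : a n {1, 2, 3} ![2, 3, 1] ≤ (↑F : Set (ℕ → ℕ)).ncard := by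
    apply Set.ncard_le_ncard_of_injOn (fun π => ext π)
    · intro π hπ
      exact hF2 _ (ext_X hπ.1 hπ.2)
    · intro π _ ρ _ h
      exact ext_inj h
  rw [Set.ncard_coe_finset] at h
  exact_mod_cast h

theorem exists_perm {n : ℕ} {f : ℕ → ℕ} (h : Q166.CycL.Y n f) :
    ∃ π : Equiv.Perm (Fin n), ext π = f := by
  let g : Fin n → Fin n := fun i => ⟨f i, h.lt i i.2⟩
  have hg : Function.Injective g := by
    intro i j hij
    have h1 : f i = f j := congrArg Fin.val hij
    exact Fin.ext (h.inj h1)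
  refine ⟨Equiv.ofBijective g (Finite.injective_iff_bijective.1 hg), ?_⟩
  funext x
  by_cases hx : x < n
  · simp [ext, hx, g]
  · simp [ext, hx, h.ge x (by omega)]

theorem lower (n : ℕ) : (121 / 50 : ℝ) ^ n ≤ a (n + 9) {1, 2, 3} ![3, 2, 1] := by
  classical
  refine le_trans (Q166.CycL.c_lower n) ?_
  obtain ⟨S, hS, hS2⟩ := Q166.CycL.Y_count (n + 9)
  have h : (↑S : Set (ℕ → ℕ)).ncard ≤ a (n + 9) {1, 2, 3} ![3, 2, 1] := by
    have hex : ∀ f : ℕ → ℕ, ∃ π : Equiv.Perm (Fin (n + 9)), f ∈ S → ext π = f := by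
      intro f
      by_cases hf : f ∈ S
      · obtain ⟨π, hπ⟩ := exists_perm (hS2 f hf)
        exact ⟨π, fun _ => hπ⟩
      · exact ⟨1, fun h => absurd h hf⟩
    choose G hG using hex
    apply Set.ncard_le_ncard_of_injOn G
    · intro f hf
      have hf' : f ∈ S := hf
      have e := hG f hf'
      have hY := hS2 f hf'
      have r : ∀ x : Fin (n + 9), ((G f x : Fin (n + 9)) : ℕ) = f x := by
        intro x
        rw [← ext_fin, e]
      refine ⟨?_, ?_⟩
      · rintro ⟨i, hi, hpat⟩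
        have h1 := (hpat 1 0).2 (by simp)
        have h2 := (hpat 2 1).2 (by simp)
        rw [Fin.lt_def, r, r] at h1 h2
        have m1 : i 0 < i 1 := hi (by decide)
        have m2 : i 1 < i 2 := hi (by decide)
        exact hY.av _ _ _ (Fin.lt_def.1 m1) (Fin.lt_def.1 m2) ⟨h2, h1⟩
      · intro x
        rw [period_iff]
        have h3 := hY.cyc x
        rcases h3 with h | h | h
        · left; apply Fin.ext; rw [r]; exact h
        · right; left; apply Fin.ext; rw [r, r]; exact h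
        · right; right; apply Fin.ext; rw [r, r, r]; exact h
    · intro f hf g hg hfg
      rw [← hG f hf, ← hG g hg, hfg]
  rw [Set.ncard_coe_finset, hS] at h
  exact_mod_cast h

/-- The conjectured chain of inequalities is false: `a_n^{1,2,3}(231) ≤ 2.41 ^ n` for all `n`, while
`a_{n+9}^{1,2,3}(321) ≥ 2.42 ^ n`; hence `a_n^{1,2,3}(231) < a_n^{1,2,3}(321)` for all large `n`,
contrary to the last of the four inequalities. -/
theorem result :
    (∀ n, (a n {1, 2, 3} ![2, 3, 1] : ℝ) ≤ (241 / 100 : ℝ) ^ n ∧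
      (242 / 100 : ℝ) ^ n ≤ a (n + 9) {1, 2, 3} ![3, 2, 1]) ∧
    (∃ N, ∀ n ≥ N, a n {1, 2, 3} ![2, 3, 1] < a n {1, 2, 3} ![3, 2, 1]) ∧
    ¬ (∀ n ≥ 1, a n {1, 3} ![1, 3, 2] ≤ a n {1, 3} ![3, 2, 1] ∧
      a n {1, 2, 3} ![1, 2, 3] ≤ a n {1, 2, 3} ![1, 3, 2] ∧
      a n {1, 2, 3} ![1, 3, 2] ≤ a n {1, 2, 3} ![3, 2, 1] ∧
      a n {1, 2, 3} ![3, 2, 1] ≤ a n {1, 2, 3} ![2, 3, 1]) := by
  have h2 : ∃ N, ∀ n ≥ N, a n {1, 2, 3} ![2, 3, 1] < a n {1, 2, 3} ![3, 2, 1] := by
    have ht := tendsto_pow_atTop_atTop_of_one_lt (show (1 : ℝ) < 242 / 241 by norm_num)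
    obtain ⟨N, hN⟩ := (ht.eventually_gt_atTop ((241 / 100 : ℝ) ^ 9)).exists_forall_of_atTop
    refine ⟨N + 9, fun n hn => ?_⟩
    obtain ⟨m, rfl⟩ : ∃ m, n = m + 9 := ⟨n - 9, by omega⟩
    have h3 := hN m (by omega)
    have h4 := upper (m + 9)
    have h5 := lower m
    have h6 : (a (m + 9) {1, 2, 3} ![2, 3, 1] : ℝ) < a (m + 9) {1, 2, 3} ![3, 2, 1] := by
      refine lt_of_le_of_lt h4 (lt_of_lt_of_le ?_ h5)
      have e : (121 / 50 : ℝ) ^ m = (241 / 100) ^ m * (242 / 241) ^ m := by
        rw [← mul_pow]; norm_num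
      rw [e, pow_add]
      have hp : 0 < (241 / 100 : ℝ) ^ m := by positivity
      exact mul_lt_mul_of_pos_left h3 hp
    exact_mod_cast h6
  refine ⟨fun n => ⟨upper n, ?_⟩, h2, ?_⟩
  · have := lower n
    have e : (242 / 100 : ℝ) = 121 / 50 := by norm_num
    rw [e]
    exact this
  · intro hall
    obtain ⟨N, hN⟩ := h2
    have h3 := hN (N + 1) (by omega)
    have h4 := (hall (N + 1) (by omega)).2.2.2
    omega

end Pool.Agent.Results.MP_fa04ef_co.Disproof
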